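import Mathlib

set_option autoImplicit false

namespace Pool.Agent.H801R3.Dress

variable {n : ℕ}

/-- The cell of the subdivision induced by `w` selected by the linear functional `c`. -/
def cell (w : Finset (Fin n) → ℝ) (c : Fin n → ℝ) : Set (Finset (Fin n)) :=
  {B : Finset (Fin n) | B.card = 3 ∧ ∀ B' : Finset (Fin n), B'.card = 3 →
      w B - ∑ i ∈ B, c i ≤ w B' - ∑ i ∈ B', c i}

lemma sum_three (c : Fin n → ℝ) {i j s : Fin n} (h1 : i ≠ j) (h2 : i ≠ s) (h3 : j ≠ s) :
    ∑ x ∈ (insert i (insert j ({s} : Finset (Fin n)))), c x = c i + c j + c s := by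
  rw [Finset.sum_insert, Finset.sum_insert, Finset.sum_singleton]
  · ring
  · simpa using h3
  · simp [h1, h2]

lemma card_three {i j s : Fin n} (h1 : i ≠ j) (h2 : i ≠ s) (h3 : j ≠ s) :
    (insert i (insert j ({s} : Finset (Fin n)))).card = 3 := by
  rw [Finset.card_insert_of_notMem, Finset.card_insert_of_notMem, Finset.card_singleton]
  · simpa using h3
  · simp [h1, h2]

lemma exists_bound (w : Finset (Fin n) → ℝ) : ∃ W : ℝ, 0 ≤ W ∧ ∀ B, |w B| ≤ W := by
  refine ⟨∑ B, |w B|, Finset.sum_nonneg (fun _ _ => abs_nonneg _), fun B => ?_⟩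
  exact Finset.single_le_sum (f := fun B => |w B|) (fun _ _ => abs_nonneg _) (Finset.mem_univ B)

/-- Every 3-set containing `s` is `{x, y, s}`. -/
lemma exists_pair {B : Finset (Fin n)} (hB : B.card = 3) {s : Fin n} (hs : s ∈ B) :
    ∃ x y, x ≠ y ∧ x ≠ s ∧ y ≠ s ∧ B = insert x (insert y {s}) := by
  have h2 : (B.erase s).card = 2 := by rw [Finset.card_erase_of_mem hs, hB]
  obtain ⟨x, y, hxy, he⟩ := Finset.card_eq_two.mp h2
  have hx : x ∈ B.erase s := by rw [he]; simp
  have hy : y ∈ B.erase s := by rw [he]; simp
  refine ⟨x, y, hxy, (Finset.mem_erase.mp hx).1, (Finset.mem_erase.mp hy).1, ?_⟩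
  rw [← Finset.insert_erase hs, he]
  ext z; simp; tauto

/-- Square faces of octahedra are cells: if every cell of `w` lies in a cell of `v`, then the
closed three-term condition of `w` at an octahedron is inherited by `v`. -/
theorem oct_of_cells (w v : Finset (Fin n) → ℝ)
    (h : ∀ c : Fin n → ℝ, ∃ c' : Fin n → ℝ, cell w c ⊆ cell v c')
    (s i j k l : Fin n) (his : i ≠ s) (hjs : j ≠ s) (hks : k ≠ s) (hls : l ≠ s)
    (hij : i ≠ j) (hik : i ≠ k) (hil : i ≠ l) (hjk : j ≠ k) (hjl : j ≠ l) (hkl : k ≠ l)
    (h1 : w (insert i (insert j {s})) + w (insert k (insert l {s}))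
        = w (insert i (insert k {s})) + w (insert j (insert l {s})))
    (h2 : w (insert i (insert j {s})) + w (insert k (insert l {s}))
        ≤ w (insert i (insert l {s})) + w (insert j (insert k {s}))) :
    v (insert i (insert j {s})) + v (insert k (insert l {s}))
        = v (insert i (insert k {s})) + v (insert j (insert l {s})) ∧
    v (insert i (insert j {s})) + v (insert k (insert l {s}))
        ≤ v (insert i (insert l {s})) + v (insert j (insert k {s})) := by
  classical
  obtain ⟨W, hW0, hW⟩ := exists_bound w
  set pij := w (insert i (insert j {s})) with hpij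
  set pkl := w (insert k (insert l {s})) with hpkl
  set pik := w (insert i (insert k {s})) with hpik
  set pjl := w (insert j (insert l {s})) with hpjl
  set pil := w (insert i (insert l {s})) with hpil
  set pjk := w (insert j (insert k {s})) with hpjk
  -- values of the functional
  obtain ⟨u, hu⟩ : ∃ u : ℝ, 2 * u = pij + pik - pjk := ⟨(pij + pik - pjk) / 2, by ring⟩
  set ci := u with hci
  set cj := pij - u with hcj
  set ck := pik - u with hck
  set cl := pkl - ck with hcl
  set C := |ci| + |cj| + |ck| + |cl| with hC
  set L := W + 3 * C with hL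
  have hCi : ci ≤ C := by
    have := le_abs_self ci; have := abs_nonneg cj; have := abs_nonneg ck; have := abs_nonneg cl
    linarith
  have hCj : cj ≤ C := by
    have := le_abs_self cj; have := abs_nonneg ci; have := abs_nonneg ck; have := abs_nonneg cl
    linarith
  have hCk : ck ≤ C := by
    have := le_abs_self ck; have := abs_nonneg cj; have := abs_nonneg ci; have := abs_nonneg cl
    linarith
  have hCl : cl ≤ C := by
    have := le_abs_self cl; have := abs_nonneg cj; have := abs_nonneg ck; have := abs_nonneg ci
    linarith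
  have hC0 : 0 ≤ C := by positivity
  let c : Fin n → ℝ := fun x =>
    if x = s then L else if x = i then ci else if x = j then cj else if x = k then ck
    else if x = l then cl else -L
  have cs : c s = L := by simp [c]
  have ci' : c i = ci := by simp [c, his]
  have cj' : c j = cj := by simp [c, hjs, hij.symm]
  have ck' : c k = ck := by simp [c, hks, hik.symm, hjk.symm]
  have cl' : c l = cl := by simp [c, hls, hil.symm, hjl.symm, hkl.symm]
  have cout : ∀ x, x ≠ s → x ≠ i → x ≠ j → x ≠ k → x ≠ l → c x = -L := by
    intro x a1 a2 a3 a4 a5; simp [c, a1, a2, a3, a4, a5]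
  have cle : ∀ x, x ≠ s → c x ≤ C := by
    intro x hx
    by_cases a2 : x = i
    · rw [a2, ci']; exact hCi
    by_cases a3 : x = j
    · rw [a3, cj']; exact hCj
    by_cases a4 : x = k
    · rw [a4, ck']; exact hCk
    by_cases a5 : x = l
    · rw [a5, cl']; exact hCl
    rw [cout x hx a2 a3 a4 a5]; linarith
  -- lower bound -L for all values
  have lower : ∀ B : Finset (Fin n), B.card = 3 → -L ≤ w B - ∑ x ∈ B, c x := by
    intro B hB
    have hwB := (abs_le.mp (hW B)).1
    by_cases hs : s ∈ B
    · obtain ⟨x, y, hxy, hxs, hys, rfl⟩ := exists_pair hB hs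
      rw [sum_three c hxy hxs hys, cs]
      -- both in the four-element set?
      by_cases hx : x = i ∨ x = j ∨ x = k ∨ x = l
      · by_cases hy : y = i ∨ y = j ∨ y = k ∨ y = l
        · rcases hx with rfl | rfl | rfl | rfl <;> rcases hy with rfl | rfl | rfl | rfl <;>
            first
            | exact absurd rfl hxy
            | (simp only [ci', cj', ck', cl']
               first
               | linarith
               | (rw [Finset.insert_comm]; linarith))
        · push Not at hy
          have := cout y hys hy.1 hy.2.1 hy.2.2.1 hy.2.2.2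
          have := cle x hxs
          linarith
      · push Not at hx
        have := cout x hxs hx.1 hx.2.1 hx.2.2.1 hx.2.2.2
        have := cle y hys
        linarith
    · have : ∑ x ∈ B, c x ≤ ∑ x ∈ B, C := by
        apply Finset.sum_le_sum
        intro x hx
        exact cle x (fun h => hs (h ▸ hx))
      rw [Finset.sum_const, hB] at this
      simp only [nsmul_eq_mul] at this
      push_cast at this
      linarith
  obtain ⟨c', hc'⟩ := h c
  have mem : ∀ x y, x ≠ y → x ≠ s → y ≠ s →
      w (insert x (insert y {s})) - (c x + c y + c s) = -L →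
      (insert x (insert y ({s} : Finset (Fin n)))) ∈ cell w c := by
    intro x y hxy hxs hys he
    refine ⟨card_three hxy hxs hys, fun B' hB' => ?_⟩
    rw [sum_three c hxy hxs hys, he]
    exact lower B' hB'
  have m1 := hc' (mem i j hij his hjs (by rw [ci', cj', cs]; linarith))
  have m2 := hc' (mem k l hkl hks hls (by rw [ck', cl', cs]; linarith))
  have m3 := hc' (mem i k hik his hks (by rw [ci', ck', cs]; linarith))
  have m4 := hc' (mem j l hjl hjs hls (by rw [cj', cl', cs]; linarith))
  have a1 := m1.2 _ m3.1
  have a2 := m3.2 _ m1.1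
  have a3 := m2.2 _ m4.1
  have a4 := m4.2 _ m2.1
  have a5 := m1.2 _ (card_three hil his hls)
  have a6 := m2.2 _ (card_three hjk hjs hks)
  simp only [sum_three c' hij his hjs, sum_three c' hkl hks hls, sum_three c' hik his hks,
    sum_three c' hjl hjs hls, sum_three c' hil his hls, sum_three c' hjk hjs hks] at a1 a2 a3 a4 a5 a6
  constructor <;> linarith

end Pool.Agent.H801R3.Dress
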