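import Mathlib
import Pool.Agent.H801R3.Dress

set_option autoImplicit false

namespace Pool.Agent.H801R3.Dress

/-- Encoded table of a tropical Pluecker vector on 3-subsets of a 9-set
(two bits for each mask). -/
def big : ℕ := 528294531135665246409617592760134645534885438671807490924847702036822502014632695529459231721909253863930504907102548898986489744157551751139236678011378515614954221015288425811328345827444536045192785659911803081681205263136244020625440910561631950183354885156659789824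

/-- Value of the vector at the 3-set with bit mask `m`. -/
def tv (m : ℕ) : ℕ := (big / 4 ^ m) % 4

/-- bit of an element -/
def bt (i : Fin 9) : ℕ := 2 ^ (i : ℕ)

/-- value at `{i, j, s}` -/
def tt (i j s : Fin 9) : ℕ := tv (bt i + bt j + bt s)

/-- mask of a set -/
def mask (B : Finset (Fin 9)) : ℕ := ∑ i ∈ B, bt i

/-- The tropical Pluecker vector. -/
noncomputable def w9 (B : Finset (Fin 9)) : ℝ := (tv (mask B) : ℝ)

lemma mask_three {i j s : Fin 9} (h1 : i ≠ j) (h2 : i ≠ s) (h3 : j ≠ s) :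
    mask (insert i (insert j ({s} : Finset (Fin 9)))) = bt i + bt j + bt s := by
  unfold mask
  rw [Finset.sum_insert, Finset.sum_insert, Finset.sum_singleton]
  · ring
  · simpa using h3
  · simp [h1, h2]

lemma w9_three {i j s : Fin 9} (h1 : i ≠ j) (h2 : i ≠ s) (h3 : j ≠ s) :
    w9 (insert i (insert j ({s} : Finset (Fin 9)))) = (tt i j s : ℝ) := by
  unfold w9 tt
  rw [mask_three h1 h2 h3]

/-- the three-term condition for numbers -/
def cond (x y z : ℕ) : Bool := (x == y && Nat.ble x z) || (x == z && Nat.ble x y) || (y == z && Nat.ble y x)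

/-- Full check of the three-term relations. -/
def chkAll : Bool :=
  (List.finRange 9).all fun s => (List.finRange 9).all fun i => (List.finRange 9).all fun j =>
    (List.finRange 9).all fun k => (List.finRange 9).all fun l =>
      (s == i || s == j || s == k || s == l || i == j || i == k || i == l || j == k || j == l
        || k == l) ||
      cond (tt i j s + tt k l s) (tt i k s + tt j l s) (tt i l s + tt j k s)

lemma chkAll_true : chkAll = true := by decide +kernel

lemma cond_of {s i j k l : Fin 9} (his : i ≠ s) (hjs : j ≠ s) (hks : k ≠ s) (hls : l ≠ s)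
    (hij : i ≠ j) (hik : i ≠ k) (hil : i ≠ l) (hjk : j ≠ k) (hjl : j ≠ l) (hkl : k ≠ l) :
    cond (tt i j s + tt k l s) (tt i k s + tt j l s) (tt i l s + tt j k s) = true := by
  have h := chkAll_true
  unfold chkAll at h
  rw [List.all_eq_true] at h
  have h := h s (List.mem_finRange s)
  rw [List.all_eq_true] at h
  have h := h i (List.mem_finRange i)
  rw [List.all_eq_true] at h
  have h := h j (List.mem_finRange j)
  rw [List.all_eq_true] at h
  have h := h k (List.mem_finRange k)
  rw [List.all_eq_true] at h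
  have h := h l (List.mem_finRange l)
  simpa [his.symm, hjs.symm, hks.symm, hls.symm, hij, hik, hil, hjk, hjl, hkl] using h

/-- The steps of the propagation: `(s, i, j, k, l)` determines the value at `{i, j, s}`. -/
def steps : List (Fin 9 × Fin 9 × Fin 9 × Fin 9 × Fin 9) :=
  [(1, 3, 4, 0, 2), (1, 0, 4, 2, 3), (1, 0, 5, 3, 2), (1, 3, 6, 0, 2), (1, 0, 6, 2, 3),
   (1, 0, 7, 3, 2), (1, 0, 8, 3, 2), (1, 4, 5, 0, 2), (1, 4, 7, 0, 2), (1, 4, 8, 0, 2),
   (1, 5, 6, 0, 2), (1, 6, 7, 0, 2), (1, 6, 8, 0, 2), (2, 3, 4, 0, 1), (2, 0, 4, 1, 3),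
   (2, 3, 5, 0, 1), (2, 0, 5, 1, 3), (2, 3, 6, 0, 1), (2, 0, 6, 1, 3), (2, 3, 7, 0, 1),
   (2, 0, 7, 1, 3), (2, 3, 8, 0, 1), (2, 0, 8, 1, 3), (3, 0, 5, 1, 2), (3, 0, 7, 1, 2),
   (3, 0, 8, 1, 2), (3, 5, 4, 0, 1), (3, 4, 6, 0, 1), (3, 0, 6, 1, 4), (3, 7, 4, 0, 1),
   (3, 8, 4, 0, 1), (3, 5, 6, 0, 1), (3, 7, 6, 0, 1), (3, 8, 6, 0, 1), (4, 0, 5, 2, 1),
   (4, 0, 7, 2, 1), (4, 0, 8, 2, 1), (4, 0, 6, 1, 3), (4, 6, 5, 0, 1), (4, 6, 7, 0, 1),
   (4, 1, 6, 0, 7), (4, 6, 8, 0, 1), (4, 2, 6, 0, 5), (5, 0, 6, 2, 1), (5, 2, 6, 0, 4),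
   (5, 2, 4, 0, 6), (6, 0, 7, 2, 1), (6, 0, 8, 2, 1), (6, 7, 2, 0, 5), (6, 8, 5, 0, 2),
   (6, 8, 7, 0, 2), (6, 2, 8, 1, 5), (7, 1, 8, 0, 6), (7, 0, 8, 1, 6), (7, 8, 3, 0, 2),
   (7, 2, 4, 0, 6), (7, 2, 8, 0, 6), (7, 4, 8, 0, 3), (8, 0, 5, 1, 6), (8, 1, 5, 0, 6),
   (8, 5, 7, 0, 1), (8, 5, 3, 0, 2), (8, 2, 4, 0, 6), (8, 2, 5, 0, 6), (8, 4, 5, 0, 3),
   (0, 5, 7, 1, 8), (1, 3, 8, 0, 5), (1, 3, 5, 0, 8), (1, 3, 7, 0, 8), (1, 5, 7, 0, 8),
   (3, 5, 7, 0, 1), (5, 7, 4, 0, 2), (5, 7, 6, 0, 2), (5, 2, 7, 1, 4)]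

/-- The masks at which the normalised vector is zero at the start. -/
def base : List ℕ := [7, 14, 13, 11, 22, 38, 70, 134, 262, 25]

/-- Check of one step. -/
def okStep (known : List ℕ) (s i j k l : Fin 9) : Bool :=
  i != s && j != s && k != s && l != s && i != j && i != k && i != l && j != k && j != l && k != l
  && (tt i j s + tt k l s == tt i k s + tt j l s)
  && Nat.ble (tt i j s + tt k l s) (tt i l s + tt j k s)
  && known.contains (bt k + bt l + bt s) && known.contains (bt i + bt k + bt s)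
  && known.contains (bt j + bt l + bt s)

/-- Run of the propagation. -/
def run : List (Fin 9 × Fin 9 × Fin 9 × Fin 9 × Fin 9) → List ℕ → Option (List ℕ)
  | [], known => some known
  | (s, i, j, k, l) :: r, known =>
    if okStep known s i j k l then run r ((bt i + bt j + bt s) :: known) else none

/-- everything is reached -/
def chkRun : Bool :=
  match run steps base with
  | none => false
  | some f => (List.finRange 9).all fun i => (List.finRange 9).all fun j =>
      (List.finRange 9).all fun s => (i == j || i == s || j == s) || f.contains (bt i + bt j + bt s)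

lemma chkRun_true : chkRun = true := by decide +kernel

/-- Correctness of the propagation. -/
lemma run_correct (U : ℕ → ℝ)
    (hU : ∀ s i j k l : Fin 9, i ≠ s → j ≠ s → k ≠ s → l ≠ s → i ≠ j → i ≠ k → i ≠ l → j ≠ k →
      j ≠ l → k ≠ l → tt i j s + tt k l s = tt i k s + tt j l s →
      tt i j s + tt k l s ≤ tt i l s + tt j k s →
      U (bt i + bt j + bt s) + U (bt k + bt l + bt s)
        = U (bt i + bt k + bt s) + U (bt j + bt l + bt s)) :
    ∀ (st : List (Fin 9 × Fin 9 × Fin 9 × Fin 9 × Fin 9)) (known f : List ℕ),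
      (∀ m ∈ known, U m = 0) → run st known = some f → ∀ m ∈ f, U m = 0 := by
  intro st
  induction st with
  | nil =>
    intro known f hk hr
    simp only [run, Option.some.injEq] at hr
    subst hr; exact hk
  | cons t r ih =>
    intro known f hk hr
    obtain ⟨s, i, j, k, l⟩ := t
    rw [run] at hr
    split_ifs at hr with hok
    apply ih _ f _ hr
    intro m hm
    rcases List.mem_cons.mp hm with rfl | hm
    · simp only [okStep, Bool.and_eq_true, bne_iff_ne, ne_eq, beq_iff_eq, List.contains_eq_mem,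
        decide_eq_true_eq, Nat.ble_eq] at hok
      obtain ⟨⟨⟨⟨⟨⟨⟨⟨⟨⟨⟨⟨⟨⟨a1, a2⟩, a3⟩, a4⟩, a5⟩, a6⟩, a7⟩, a8⟩, a9⟩, a10⟩, b1⟩, b2⟩, c1⟩, c2⟩, c3⟩ := hok
      have := hU s i j k l a1 a2 a3 a4 a5 a6 a7 a8 a9 a10 b1 b2
      rw [hk _ c1, hk _ c2, hk _ c3] at this
      linarith
    · exact hk m hm

/-- Conclusion: a functional which satisfies the relations and vanishes on the base vanishes. -/
lemma all_zero (U : ℕ → ℝ)
    (hU : ∀ s i j k l : Fin 9, i ≠ s → j ≠ s → k ≠ s → l ≠ s → i ≠ j → i ≠ k → i ≠ l → j ≠ k →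
      j ≠ l → k ≠ l → tt i j s + tt k l s = tt i k s + tt j l s →
      tt i j s + tt k l s ≤ tt i l s + tt j k s →
      U (bt i + bt j + bt s) + U (bt k + bt l + bt s)
        = U (bt i + bt k + bt s) + U (bt j + bt l + bt s))
    (hbase : ∀ m ∈ base, U m = 0) (i j s : Fin 9) (h1 : i ≠ j) (h2 : i ≠ s) (h3 : j ≠ s) :
    U (bt i + bt j + bt s) = 0 := by
  have h := chkRun_true
  unfold chkRun at h
  cases hr : run steps base with
  | none => rw [hr] at h; simp at h
  | some f =>
    rw [hr] at h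
    simp only at h
    rw [List.all_eq_true] at h
    have h := h i (List.mem_finRange i)
    rw [List.all_eq_true] at h
    have h := h j (List.mem_finRange j)
    rw [List.all_eq_true] at h
    have h := h s (List.mem_finRange s)
    simp [h1, h2, h3] at h
    exact run_correct U hU steps base f hbase hr _ h

end Pool.Agent.H801R3.Dress
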