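import Mathlib
import Pool.Agent.H801R3.DressData

set_option autoImplicit false

namespace Pool.Agent.H801R3.Dress

lemma cond_real {x y z : ℕ} (h : cond x y z = true) :
    ((x : ℝ) = y ∧ (x : ℝ) ≤ z) ∨ ((x : ℝ) = z ∧ (x : ℝ) ≤ y) ∨ ((y : ℝ) = z ∧ (y : ℝ) ≤ x) := by
  simp only [cond, Bool.or_eq_true, Bool.and_eq_true, beq_iff_eq, Nat.ble_eq] at h
  rcases h with (⟨h1, h2⟩ | ⟨h1, h2⟩) | ⟨h1, h2⟩
  · left; exact ⟨by exact_mod_cast h1, by exact_mod_cast h2⟩
  · right; left; exact ⟨by exact_mod_cast h1, by exact_mod_cast h2⟩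
  · right; right; exact ⟨by exact_mod_cast h1, by exact_mod_cast h2⟩

/-- `w9` is a tropical Pluecker vector. -/
theorem w9_tropical (S : Finset (Fin 9)) (i j k l : Fin 9) (hS : S.card + 2 = 3)
    (hi : i ∉ S) (hj : j ∉ S) (hk : k ∉ S) (hl : l ∉ S)
    (hij : i ≠ j) (hik : i ≠ k) (hil : i ≠ l) (hjk : j ≠ k) (hjl : j ≠ l) (hkl : k ≠ l) :
    ((w9 (insert i (insert j S)) + w9 (insert k (insert l S))
            = w9 (insert i (insert k S)) + w9 (insert j (insert l S)) ∧
          w9 (insert i (insert j S)) + w9 (insert k (insert l S))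
            ≤ w9 (insert i (insert l S)) + w9 (insert j (insert k S))) ∨
         (w9 (insert i (insert j S)) + w9 (insert k (insert l S))
            = w9 (insert i (insert l S)) + w9 (insert j (insert k S)) ∧
          w9 (insert i (insert j S)) + w9 (insert k (insert l S))
            ≤ w9 (insert i (insert k S)) + w9 (insert j (insert l S))) ∨
         (w9 (insert i (insert k S)) + w9 (insert j (insert l S))
            = w9 (insert i (insert l S)) + w9 (insert j (insert k S)) ∧
          w9 (insert i (insert k S)) + w9 (insert j (insert l S))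
            ≤ w9 (insert i (insert j S)) + w9 (insert k (insert l S)))) := by
  obtain ⟨s, rfl⟩ := Finset.card_eq_one.mp (by omega : S.card = 1)
  rw [Finset.mem_singleton] at hi hj hk hl
  have h := cond_real (cond_of hi hj hk hl hij hik hil hjk hjl hkl)
  push_cast at h
  rw [w9_three hij hi hj, w9_three hkl hk hl, w9_three hik hi hk, w9_three hjl hj hl,
    w9_three hil hi hl, w9_three hjk hj hk]
  exact h

/-- the set with a given bit mask -/
def st (m : ℕ) : Finset (Fin 9) := Finset.univ.filter (fun x : Fin 9 => m.testBit x = true)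

lemma st_three : ∀ i j s : Fin 9, i ≠ j → i ≠ s → j ≠ s →
    st (bt i + bt j + bt s) = insert i (insert j {s}) := by
  decide +kernel

/-- The rigidity statement: a function into whose cells the cells of `w9` fit is a nonnegative
multiple of `w9` modulo linear functions. -/
theorem rigid (v : Finset (Fin 9) → ℝ)
    (h : ∀ c : Fin 9 → ℝ, ∃ c' : Fin 9 → ℝ, cell w9 c ⊆ cell v c') :
    ∃ (r : ℝ) (a : Fin 9 → ℝ), 0 ≤ r ∧
      ∀ B : Finset (Fin 9), B.card = 3 → v B = r * w9 B + ∑ x ∈ B, a x := by
  obtain ⟨a3, ha3⟩ : ∃ t : ℝ, t = (v (insert 1 (insert 2 {3})) + v (insert 0 (insert 2 {3}))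
    + v (insert 0 (insert 1 {3})) - 2 * v (insert 0 (insert 1 {2}))) / 3 := ⟨_, rfl⟩
  obtain ⟨a0, ha0⟩ : ∃ t : ℝ, t = a3 - (v (insert 1 (insert 2 {3})) - v (insert 0 (insert 1 {2}))) :=
    ⟨_, rfl⟩
  obtain ⟨a1, ha1⟩ : ∃ t : ℝ, t = a3 - (v (insert 0 (insert 2 {3})) - v (insert 0 (insert 1 {2}))) :=
    ⟨_, rfl⟩
  obtain ⟨a2, ha2⟩ : ∃ t : ℝ, t = a3 - (v (insert 0 (insert 1 {3})) - v (insert 0 (insert 1 {2}))) :=
    ⟨_, rfl⟩
  obtain ⟨a4, ha4⟩ : ∃ t : ℝ, t = v (insert 1 (insert 2 {4})) - a1 - a2 := ⟨_, rfl⟩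
  obtain ⟨a5, ha5⟩ : ∃ t : ℝ, t = v (insert 1 (insert 2 {5})) - a1 - a2 := ⟨_, rfl⟩
  obtain ⟨a6, ha6⟩ : ∃ t : ℝ, t = v (insert 1 (insert 2 {6})) - a1 - a2 := ⟨_, rfl⟩
  obtain ⟨a7, ha7⟩ : ∃ t : ℝ, t = v (insert 1 (insert 2 {7})) - a1 - a2 := ⟨_, rfl⟩
  obtain ⟨a8, ha8⟩ : ∃ t : ℝ, t = v (insert 1 (insert 2 {8})) - a1 - a2 := ⟨_, rfl⟩
  obtain ⟨r, hr⟩ : ∃ t : ℝ, t = v (insert 0 (insert 3 {4})) - a0 - a3 - a4 := ⟨_, rfl⟩
  let a : Fin 9 → ℝ := ![a0, a1, a2, a3, a4, a5, a6, a7, a8]
  let U : ℕ → ℝ := fun m => v (st m) - r * (tv m : ℝ) - ∑ x ∈ st m, a x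
  have hU3 : ∀ i j s : Fin 9, i ≠ j → i ≠ s → j ≠ s → U (bt i + bt j + bt s) =
      v (insert i (insert j {s})) - r * (tt i j s : ℝ) - (a i + a j + a s) := by
    intro i j s h1 h2 h3
    simp only [U]
    rw [st_three i j s h1 h2 h3, sum_three a h1 h2 h3]
    rfl
  have hrel : ∀ s i j k l : Fin 9, i ≠ s → j ≠ s → k ≠ s → l ≠ s → i ≠ j → i ≠ k → i ≠ l → j ≠ k →
      j ≠ l → k ≠ l → tt i j s + tt k l s = tt i k s + tt j l s →
      tt i j s + tt k l s ≤ tt i l s + tt j k s →
      (v (insert i (insert j {s})) + v (insert k (insert l {s}))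
        = v (insert i (insert k {s})) + v (insert j (insert l {s})) ∧
      v (insert i (insert j {s})) + v (insert k (insert l {s}))
        ≤ v (insert i (insert l {s})) + v (insert j (insert k {s}))) := by
    intro s i j k l his hjs hks hls hij hik hil hjk hjl hkl e1 e2
    apply oct_of_cells w9 v h s i j k l his hjs hks hls hij hik hil hjk hjl hkl
    · rw [w9_three hij his hjs, w9_three hkl hks hls, w9_three hik his hks, w9_three hjl hjs hls]
      exact_mod_cast e1
    · rw [w9_three hij his hjs, w9_three hkl hks hls, w9_three hil his hls, w9_three hjk hjs hks]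
      exact_mod_cast e2
  have hU : ∀ s i j k l : Fin 9, i ≠ s → j ≠ s → k ≠ s → l ≠ s → i ≠ j → i ≠ k → i ≠ l → j ≠ k →
      j ≠ l → k ≠ l → tt i j s + tt k l s = tt i k s + tt j l s →
      tt i j s + tt k l s ≤ tt i l s + tt j k s →
      U (bt i + bt j + bt s) + U (bt k + bt l + bt s)
        = U (bt i + bt k + bt s) + U (bt j + bt l + bt s) := by
    intro s i j k l his hjs hks hls hij hik hil hjk hjl hkl e1 e2
    have := (hrel s i j k l his hjs hks hls hij hik hil hjk hjl hkl e1 e2).1
    rw [hU3 i j s hij his hjs, hU3 k l s hkl hks hls, hU3 i k s hik his hks, hU3 j l s hjl hjs hls]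
    have e1' : (tt i j s : ℝ) + tt k l s = tt i k s + tt j l s := by exact_mod_cast e1
    linear_combination this - r * e1'
  have hbase : ∀ m ∈ base, U m = 0 := by
    intro m hm
    simp only [base, List.mem_cons, List.not_mem_nil, or_false] at hm
    have t7 : tt 0 1 2 = 0 := by decide +kernel
    have t14 : tt 1 2 3 = 0 := by decide +kernel
    have t13 : tt 0 2 3 = 0 := by decide +kernel
    have t11 : tt 0 1 3 = 0 := by decide +kernel
    have t22 : tt 1 2 4 = 0 := by decide +kernel
    have t38 : tt 1 2 5 = 0 := by decide +kernel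
    have t70 : tt 1 2 6 = 0 := by decide +kernel
    have t134 : tt 1 2 7 = 0 := by decide +kernel
    have t262 : tt 1 2 8 = 0 := by decide +kernel
    have t25 : tt 0 3 4 = 1 := by decide +kernel
    rcases hm with rfl | rfl | rfl | rfl | rfl | rfl | rfl | rfl | rfl | rfl
    · have := hU3 0 1 2 (by decide) (by decide) (by decide)
      rw [t7] at this
      change U 7 = _ at this
      rw [this]; simp [a]; linarith
    · have := hU3 1 2 3 (by decide) (by decide) (by decide)
      rw [t14] at this
      change U 14 = _ at this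
      rw [this]; simp [a]; linarith
    · have := hU3 0 2 3 (by decide) (by decide) (by decide)
      rw [t13] at this
      change U 13 = _ at this
      rw [this]; simp [a]; linarith
    · have := hU3 0 1 3 (by decide) (by decide) (by decide)
      rw [t11] at this
      change U 11 = _ at this
      rw [this]; simp [a]; linarith
    · have := hU3 1 2 4 (by decide) (by decide) (by decide)
      rw [t22] at this
      change U 22 = _ at this
      rw [this]; simp [a]; linarith
    · have := hU3 1 2 5 (by decide) (by decide) (by decide)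
      rw [t38] at this
      change U 38 = _ at this
      rw [this]; simp [a]; linarith
    · have := hU3 1 2 6 (by decide) (by decide) (by decide)
      rw [t70] at this
      change U 70 = _ at this
      rw [this]; simp [a]; linarith
    · have := hU3 1 2 7 (by decide) (by decide) (by decide)
      rw [t134] at this
      change U 134 = _ at this
      rw [this]; simp [a]; linarith
    · have := hU3 1 2 8 (by decide) (by decide) (by decide)
      rw [t262] at this
      change U 262 = _ at this
      rw [this]; simp [a]; linarith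
    · have := hU3 0 3 4 (by decide) (by decide) (by decide)
      rw [t25] at this
      change U 25 = _ at this
      rw [this]; simp [a]; linarith
  have hall : ∀ i j s : Fin 9, i ≠ j → i ≠ s → j ≠ s →
      v (insert i (insert j {s})) = r * (tt i j s : ℝ) + (a i + a j + a s) := by
    intro i j s h1 h2 h3
    have e := all_zero U hU hbase i j s h1 h2 h3
    rw [hU3 i j s h1 h2 h3] at e
    linarith
  refine ⟨r, a, ?_, ?_⟩
  · have e := (hrel 0 1 3 4 2 (by decide) (by decide) (by decide) (by decide) (by decide)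
      (by decide) (by decide) (by decide) (by decide) (by decide) (by decide +kernel)
      (by decide +kernel)).2
    rw [hall 1 3 0 (by decide) (by decide) (by decide), hall 4 2 0 (by decide) (by decide) (by decide),
      hall 1 2 0 (by decide) (by decide) (by decide), hall 3 4 0 (by decide) (by decide) (by decide)]
      at e
    have q1 : tt 1 3 0 = 0 := by decide +kernel
    have q2 : tt 4 2 0 = 0 := by decide +kernel
    have q3 : tt 1 2 0 = 0 := by decide +kernel
    have q4 : tt 3 4 0 = 1 := by decide +kernel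
    rw [q1, q2, q3, q4] at e
    push_cast at e
    linarith
  · intro B hB
    obtain ⟨x, y, z, hxy, hxz, hyz, rfl⟩ := Finset.card_eq_three.mp hB
    rw [w9_three hxy hxz hyz, sum_three a hxy hxz hyz]
    exact hall x y z hxy hxz hyz

/-- `w9` is not linear. -/
theorem w9_nontrivial : ¬ ∃ c : Fin 9 → ℝ, ∀ B : Finset (Fin 9), B.card = 3 →
          ∀ B' : Finset (Fin 9), B'.card = 3 →
            w9 B - ∑ i ∈ B, c i ≤ w9 B' - ∑ i ∈ B', c i := by
  rintro ⟨c, hc⟩
  have c1 : (insert 1 (insert 2 ({0} : Finset (Fin 9)))).card = 3 := by decide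
  have c2 : (insert 3 (insert 4 ({0} : Finset (Fin 9)))).card = 3 := by decide
  have c3 : (insert 1 (insert 3 ({0} : Finset (Fin 9)))).card = 3 := by decide
  have c4 : (insert 4 (insert 2 ({0} : Finset (Fin 9)))).card = 3 := by decide
  have h1 := hc _ c1 _ c3
  have h2 := hc _ c2 _ c4
  have q1 : tt 1 3 0 = 0 := by decide +kernel
  have q2 : tt 4 2 0 = 0 := by decide +kernel
  have q3 : tt 1 2 0 = 0 := by decide +kernel
  have q4 : tt 3 4 0 = 1 := by decide +kernel
  rw [sum_three c (by decide) (by decide) (by decide), sum_three c (by decide) (by decide) (by decide),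
    w9_three (by decide) (by decide) (by decide), w9_three (by decide) (by decide) (by decide)] at h1 h2
  rw [q1, q3] at h1
  rw [q2, q4] at h2
  push_cast at h1 h2
  linarith

end Pool.Agent.H801R3.Dress
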