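import Mathlib
import Pool.Agent.H801R3.DressMain

set_option autoImplicit false

namespace Pool.Agent.H801R3.Dress

/-- natural rank of a finite set -/
noncomputable def rkN (M : Matroid (Fin 9)) (B : Finset (Fin 9)) : ℕ :=
  (M.eRk (B : Set (Fin 9))).toNat

lemma eRk_ne_top (M : Matroid (Fin 9)) (X : Set (Fin 9)) : M.eRk X ≠ ⊤ := by
  apply ne_top_of_le_ne_top _ (M.eRk_le_encard X)
  exact Set.encard_ne_top_iff.mpr (Set.toFinite X)

lemma rkN_mono (M : Matroid (Fin 9)) {A B : Finset (Fin 9)} (h : A ⊆ B) : rkN M A ≤ rkN M B := by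
  unfold rkN
  apply ENat.toNat_le_toNat _ (eRk_ne_top M _)
  exact M.eRk_mono (by exact_mod_cast h)

lemma rkN_insert (M : Matroid (Fin 9)) (x : Fin 9) (A : Finset (Fin 9)) :
    rkN M (insert x A) ≤ rkN M A + 1 := by
  unfold rkN
  have h := M.eRk_insert_le_add_one x (A : Set (Fin 9))
  rw [Finset.coe_insert]
  have h2 := ENat.toNat_le_toNat h
    (WithTop.add_ne_top.mpr ⟨eRk_ne_top M (A : Set (Fin 9)), ENat.natCast_ne_top 1⟩)
  rwa [ENat.toNat_add (eRk_ne_top M _) (by simp), ENat.toNat_one] at h2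

/-- Octahedral gaps of a corank vector are at most two. -/
lemma rk_gap (M : Matroid (Fin 9)) (s i j k l : Fin 9) :
    rkN M (insert i (insert j {s})) + rkN M (insert k (insert l {s})) ≤
      rkN M (insert i (insert k {s})) + rkN M (insert j (insert l {s})) + 2 := by
  have h1 : rkN M (insert i (insert j {s})) ≤ rkN M (insert i {s}) + 1 := by
    rw [Finset.insert_comm]; exact rkN_insert M j _
  have h2 : rkN M (insert i {s}) ≤ rkN M (insert i (insert k {s})) := by
    apply rkN_mono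
    intro x hx
    simp at hx ⊢
    tauto
  have h3 : rkN M (insert k (insert l {s})) ≤ rkN M (insert l {s}) + 1 := rkN_insert M k _
  have h4 : rkN M (insert l {s}) ≤ rkN M (insert j (insert l {s})) := by
    apply rkN_mono
    intro x hx
    simp at hx ⊢
    tauto
  omega

/-- The subdivision of `w9` is not a corank subdivision. -/
theorem not_corank (M : Matroid (Fin 9)) (rho : Finset (Fin 9) → ℝ)
    (hrho : ∀ B, rho B = 3 - (rkN M B : ℝ))
    (h1 : ∀ c : Fin 9 → ℝ, ∃ c' : Fin 9 → ℝ, cell w9 c = cell rho c')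
    (h2 : ∀ c : Fin 9 → ℝ, ∃ c' : Fin 9 → ℝ, cell rho c = cell w9 c') : False := by
  obtain ⟨r, a, hr, hv⟩ := rigid rho (fun c => by
    obtain ⟨c', hc'⟩ := h1 c
    exact ⟨c', hc'.subset⟩)
  have hr0 : r ≠ 0 := by
    rintro rfl
    apply w9_nontrivial
    obtain ⟨c', hc'⟩ := h2 a
    refine ⟨c', fun B hB B' hB' => ?_⟩
    have hm : B ∈ cell rho a := by
      refine ⟨hB, fun B'' hB'' => ?_⟩
      rw [hv B hB, hv B'' hB'']; simp
    rw [hc'] at hm
    exact hm.2 B' hB'
  have hr1 : 0 < r := lt_of_le_of_ne hr (Ne.symm hr0)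
  have val : ∀ i j s : Fin 9, i ≠ j → i ≠ s → j ≠ s →
      3 - (rkN M (insert i (insert j {s})) : ℝ) = r * (tt i j s : ℝ) + (a i + a j + a s) := by
    intro i j s e1 e2 e3
    rw [← hrho, hv _ (card_three e1 e2 e3), w9_three e1 e2 e3, sum_three a e1 e2 e3]
  -- the octahedron with gap one: r is a positive integer
  have q1 : tt 1 3 0 = 0 := by decide +kernel
  have q2 : tt 4 2 0 = 0 := by decide +kernel
  have q3 : tt 1 2 0 = 0 := by decide +kernel
  have q4 : tt 3 4 0 = 1 := by decide +kernel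
  have v1 := val 1 3 0 (by decide) (by decide) (by decide)
  have v2 := val 4 2 0 (by decide) (by decide) (by decide)
  have v3 := val 1 2 0 (by decide) (by decide) (by decide)
  have v4 := val 3 4 0 (by decide) (by decide) (by decide)
  rw [q1] at v1
  rw [q2] at v2
  rw [q3] at v3
  rw [q4] at v4
  have hint : (r : ℝ) = (((rkN M (insert 1 (insert 3 {0})) + rkN M (insert 4 (insert 2 {0})) : ℕ) : ℤ)
      - ((rkN M (insert 1 (insert 2 {0})) + rkN M (insert 3 (insert 4 {0})) : ℕ) : ℤ) : ℤ) := by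
    push_cast at v1 v2 v3 v4 ⊢
    linarith
  obtain ⟨z, hz⟩ : ∃ z : ℤ, r = (z : ℝ) := ⟨_, hint⟩
  have hge : 1 ≤ r := by
    rw [hz] at hr1 ⊢
    have h0 : (0 : ℤ) < z := by exact_mod_cast hr1
    have h3 : (1 : ℤ) ≤ z := h0
    exact_mod_cast h3
  -- the octahedron with gap three
  have p1 : tt 0 3 4 = 1 := by decide +kernel
  have p2 : tt 5 7 4 = 2 := by decide +kernel
  have p3 : tt 0 5 4 = 0 := by decide +kernel
  have p4 : tt 3 7 4 = 0 := by decide +kernel
  have u1 := val 0 3 4 (by decide) (by decide) (by decide)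
  have u2 := val 5 7 4 (by decide) (by decide) (by decide)
  have u3 := val 0 5 4 (by decide) (by decide) (by decide)
  have u4 := val 3 7 4 (by decide) (by decide) (by decide)
  rw [p1] at u1
  rw [p2] at u2
  rw [p3] at u3
  rw [p4] at u4
  have g := rk_gap M 4 0 5 3 7
  have g' : (rkN M (insert 0 (insert 5 {4})) : ℝ) + rkN M (insert 3 (insert 7 {4})) ≤
      rkN M (insert 0 (insert 3 {4})) + rkN M (insert 5 (insert 7 {4})) + 2 := by exact_mod_cast g
  push_cast at u1 u2 u3 u4
  linarith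

/-- Subdivisions of positive multiples modulo linear functions agree. -/
lemma cell_smul (w v : Finset (Fin 9) → ℝ) (r : ℝ) (a : Fin 9 → ℝ) (hr : 0 < r)
    (hv : ∀ B : Finset (Fin 9), B.card = 3 → v B = r * w B + ∑ x ∈ B, a x) (c : Fin 9 → ℝ) :
    cell w c = cell v (fun x => r * c x + a x) := by
  have key : ∀ B : Finset (Fin 9), B.card = 3 →
      v B - ∑ x ∈ B, (r * c x + a x) = r * (w B - ∑ x ∈ B, c x) := by
    intro B hB
    rw [hv B hB, Finset.sum_add_distrib, ← Finset.mul_sum]; ring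
  ext B
  constructor
  · rintro ⟨hB, h⟩
    refine ⟨hB, fun B' hB' => ?_⟩
    rw [key B hB, key B' hB']
    exact mul_le_mul_of_nonneg_left (h B' hB') hr.le
  · rintro ⟨hB, h⟩
    refine ⟨hB, fun B' hB' => ?_⟩
    have := h B' hB'
    rw [key B hB, key B' hB'] at this
    exact le_of_mul_le_mul_left this hr

end Pool.Agent.H801R3.Dress
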