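import Mathlib

set_option autoImplicit false

namespace Pool.Agent.H801R3

/-- Mod 4 fact: the two coordinates of the form `p^2 - p q + q^2` in `(Z/4)[sqrt 3]`
vanish only if all four coordinates are even. -/
lemma mod_four_fact : ∀ a b c d : ZMod (2 ^ 2),
    a * a + 3 * (b * b) - (a * c + 3 * (b * d)) + (c * c + 3 * (d * d)) = 0 →
    2 * (a * b) - (a * d + b * c) + 2 * (c * d) = 0 →
    (2 * a = 0 ∧ 2 * b = 0) ∧ (2 * c = 0 ∧ 2 * d = 0) := by
  decide

/-- Mod 2 fact. -/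
lemma mod_two_fact : ∀ a b c d : ZMod 2,
    a * a + 3 * (b * b) - (a * c + 3 * (b * d)) + (c * c + 3 * (d * d)) = 1 →
    ¬ (a + b = 0 ∧ c + d = 0) := by
  decide

lemma even_of_toZModPow (A : ℤ_[2]) (h : 2 * (PadicInt.toZModPow 2 A) = 0) :
    ∃ B : ℤ_[2], A = 2 * B := by
  have h1 : PadicInt.toZModPow 2 (2 * A) = 0 := by
    rw [map_mul, map_ofNat]; exact h
  have h2 : 2 * A ∈ RingHom.ker (PadicInt.toZModPow (p := 2) 2) := h1
  rw [PadicInt.ker_toZModPow, Ideal.mem_span_singleton] at h2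
  obtain ⟨B, hB⟩ := h2
  refine ⟨B, ?_⟩
  have h3 : (2 : ℤ_[2]) ≠ 0 := by norm_num
  apply mul_left_cancel₀ h3
  rw [hB]; push_cast; ring

/-- If `x = 2^k`-multiples are integral solutions, all coordinates are integral. -/
lemma integral_step (k : ℕ) : ∀ A B C D : ℤ_[2],
    A * A + 3 * (B * B) - (A * C + 3 * (B * D)) + (C * C + 3 * (D * D)) = 4 ^ k →
    2 * (A * B) - (A * D + B * C) + 2 * (C * D) = 0 →
    ∃ a b c d : ℤ_[2], A = 2 ^ k * a ∧ B = 2 ^ k * b ∧ C = 2 ^ k * c ∧ D = 2 ^ k * d := by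
  induction k with
  | zero => intro A B C D _ _; exact ⟨A, B, C, D, by simp⟩
  | succ k ih =>
    intro A B C D h1 h2
    have e1 := congrArg (PadicInt.toZModPow (p := 2) 2) h1
    have e2 := congrArg (PadicInt.toZModPow (p := 2) 2) h2
    simp only [map_add, map_sub, map_mul, map_ofNat, map_pow, map_zero] at e1 e2
    have h4 : ((4 : ZMod (2 ^ 2)) ^ (k + 1)) = 0 := by
      have : (4 : ZMod (2 ^ 2)) = 0 := by decide
      rw [this]; simp
    rw [h4] at e1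
    obtain ⟨⟨ha, hb⟩, hc, hd⟩ := mod_four_fact _ _ _ _ e1 e2
    obtain ⟨a, rfl⟩ := even_of_toZModPow A ha
    obtain ⟨b, rfl⟩ := even_of_toZModPow B hb
    obtain ⟨c, rfl⟩ := even_of_toZModPow C hc
    obtain ⟨d, rfl⟩ := even_of_toZModPow D hd
    have h3 : (4 : ℤ_[2]) ≠ 0 := by norm_num
    have h1' : a * a + 3 * (b * b) - (a * c + 3 * (b * d)) + (c * c + 3 * (d * d)) = 4 ^ k := by
      apply mul_left_cancel₀ h3
      rw [pow_succ] at h1
      linear_combination h1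
    have h2' : 2 * (a * b) - (a * d + b * c) + 2 * (c * d) = 0 := by
      apply mul_left_cancel₀ h3
      linear_combination h2
    obtain ⟨a', b', c', d', rfl, rfl, rfl, rfl⟩ := ih a b c d h1' h2'
    exact ⟨a', b', c', d', by ring, by ring, by ring, by ring⟩

lemma exists_pow_mul_int (x : ℚ_[2]) : ∃ k : ℕ, ∀ m : ℕ, k ≤ m → ‖(2 : ℚ_[2]) ^ m * x‖ ≤ 1 := by
  have h2 : ‖(2 : ℚ_[2])‖ = 2⁻¹ := by
    have := Padic.norm_p (p := 2)
    simpa using this
  obtain ⟨k, hk⟩ := pow_unbounded_of_one_lt ‖x‖ (one_lt_two : (1 : ℝ) < 2)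
  refine ⟨k, fun m hm => ?_⟩
  rw [norm_mul, norm_pow, h2]
  have hle : (2 : ℝ) ^ k ≤ 2 ^ m := pow_le_pow_right₀ (by norm_num) hm
  have hpos : (0 : ℝ) < 2 ^ m := by positivity
  rw [inv_pow, inv_mul_le_iff₀ hpos]
  linarith

/-- The inclusion of `Z_2` in `Q_2`. -/
noncomputable def io : ℤ_[2] →+* ℚ_[2] := PadicInt.Coe.ringHom

lemma io_inj : Function.Injective io := fun _ _ h => Subtype.ext h

lemma two_pow_ne (k : ℕ) : (2 : ℚ_[2]) ^ k ≠ 0 := pow_ne_zero _ (by norm_num)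

/-- Points of the circle `p^2 - p q + q^2 = 1` over `Q_2(sqrt 3)` are integral and do not
reduce to zero at the prime `1 + sqrt 3`. -/
theorem circle_local (a b c d : ℚ_[2])
    (h1 : a * a + 3 * (b * b) - (a * c + 3 * (b * d)) + (c * c + 3 * (d * d)) = 1)
    (h2 : 2 * (a * b) - (a * d + b * c) + 2 * (c * d) = 0) :
    ∃ A B C D : ℤ_[2], io A = a ∧ io B = b ∧ io C = c ∧ io D = d ∧
      ¬ (PadicInt.toZMod (A + B) = 0 ∧ PadicInt.toZMod (C + D) = 0) := by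
  obtain ⟨ka, hka⟩ := exists_pow_mul_int a
  obtain ⟨kb, hkb⟩ := exists_pow_mul_int b
  obtain ⟨kc, hkc⟩ := exists_pow_mul_int c
  obtain ⟨kd, hkd⟩ := exists_pow_mul_int d
  obtain ⟨k, hk⟩ : ∃ k, k = ka + kb + kc + kd := ⟨_, rfl⟩
  obtain ⟨A, hA⟩ : ∃ A : ℤ_[2], io A = 2 ^ k * a := ⟨⟨_, hka k (by omega)⟩, rfl⟩
  obtain ⟨B, hB⟩ : ∃ A : ℤ_[2], io A = 2 ^ k * b := ⟨⟨_, hkb k (by omega)⟩, rfl⟩
  obtain ⟨C, hC⟩ : ∃ A : ℤ_[2], io A = 2 ^ k * c := ⟨⟨_, hkc k (by omega)⟩, rfl⟩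
  obtain ⟨D, hD⟩ : ∃ A : ℤ_[2], io A = 2 ^ k * d := ⟨⟨_, hkd k (by omega)⟩, rfl⟩
  have h4 : (4 : ℚ_[2]) ^ k = 2 ^ k * 2 ^ k := by rw [← mul_pow]; norm_num
  have e1 : A * A + 3 * (B * B) - (A * C + 3 * (B * D)) + (C * C + 3 * (D * D)) = 4 ^ k := by
    apply io_inj
    simp only [map_add, map_sub, map_mul, map_ofNat, map_pow]
    rw [hA, hB, hC, hD, h4]
    linear_combination (2 ^ k * 2 ^ k) * h1
  have e2 : 2 * (A * B) - (A * D + B * C) + 2 * (C * D) = 0 := by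
    apply io_inj
    simp only [map_add, map_sub, map_mul, map_ofNat, map_zero]
    rw [hA, hB, hC, hD]
    linear_combination (2 ^ k * 2 ^ k) * h2
  obtain ⟨A', B', C', D', rA, rB, rC, rD⟩ := integral_step k A B C D e1 e2
  have h2k : (2 : ℚ_[2]) ^ k ≠ 0 := two_pow_ne k
  have key : ∀ (X X' : ℤ_[2]) (x : ℚ_[2]), io X = 2 ^ k * x → X = 2 ^ k * X' → io X' = x := by
    intro X X' x h h'
    rw [h', map_mul, map_pow, map_ofNat] at h
    exact mul_left_cancel₀ h2k h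
  have cA := key _ _ _ hA rA
  have cB := key _ _ _ hB rB
  have cC := key _ _ _ hC rC
  have cD := key _ _ _ hD rD
  refine ⟨A', B', C', D', cA, cB, cC, cD, ?_⟩
  have f1 : A' * A' + 3 * (B' * B') - (A' * C' + 3 * (B' * D')) + (C' * C' + 3 * (D' * D')) = 1 := by
    apply io_inj
    simp only [map_add, map_sub, map_mul, map_ofNat, map_one]
    rw [cA, cB, cC, cD]
    linear_combination h1
  have g1 := congrArg (PadicInt.toZMod (p := 2)) f1
  simp only [map_add, map_sub, map_mul, map_ofNat, map_one] at g1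
  rw [map_add, map_add]
  exact mod_two_fact _ _ _ _ g1

/-- `3` is not a square in `Q_2`. -/
theorem three_not_square (x : ℚ_[2]) : x * x ≠ 3 := by
  intro h
  have hn : ‖x‖ * ‖x‖ = ‖(3 : ℚ_[2])‖ := by rw [← norm_mul, h]
  have h3 : ‖(3 : ℚ_[2])‖ ≤ 1 := by
    have := Padic.norm_int_le_one (p := 2) 3
    simpa using this
  have hx : ‖x‖ ≤ 1 := by
    by_contra hc
    push Not at hc
    nlinarith
  obtain ⟨X, hXx⟩ : ∃ X : ℤ_[2], io X = x := ⟨⟨x, hx⟩, rfl⟩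
  have hX : X * X = 3 := by
    apply io_inj
    rw [map_mul, map_ofNat, hXx]; exact h
  have e := congrArg (PadicInt.toZModPow (p := 2) 2) hX
  simp only [map_mul, map_ofNat] at e
  have : ∀ y : ZMod (2 ^ 2), y * y ≠ 3 := by decide
  exact this _ e

/-- `33` is a square in `Q_2`. -/
theorem thirtythree_square : ∃ x : ℚ_[2], x * x = 33 := by
  have h := hensels_lemma (p := 2) (R := ℤ_[2])
    (F := (Polynomial.X ^ 2 - Polynomial.C 33 : Polynomial ℤ_[2])) (a := 1) (by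
    have e1 : (Polynomial.aeval (1 : ℤ_[2]))
        (Polynomial.X ^ 2 - Polynomial.C 33 : Polynomial ℤ_[2]) = -((2:ℤ_[2]) ^ 5) := by
      simp; norm_num
    have e2 : (Polynomial.aeval (1 : ℤ_[2])) (Polynomial.derivative
        (Polynomial.X ^ 2 - Polynomial.C 33 : Polynomial ℤ_[2])) = (2:ℤ_[2]) := by
      simp; norm_num
    rw [e1, e2, norm_neg, norm_pow]
    have h2 : ‖(2 : ℤ_[2])‖ = 2⁻¹ := by
      have := PadicInt.norm_p (p := 2)
      simpa using this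
    rw [h2]; norm_num)
  obtain ⟨z, hz, _⟩ := h
  refine ⟨io z, ?_⟩
  have h1 : z * z = 33 := by
    simp at hz
    linear_combination hz
  rw [← map_mul, h1, map_ofNat]

end Pool.Agent.H801R3
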